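import Pool.Agent.K3h5.FF.Stm

/-!
# Correlations of weights which change by a bounded factor (brick RATIO, helper42)
-/

set_option autoImplicit false

namespace Pool.Agent.K3h42.FF

open Pool.Agent.K3h5.FF

lemma pr_swap {n : ℕ} {w : Equiv.Perm (Fin n) → ℝ} {C : ℝ} (hC : 1 ≤ C) (hw : ∀ π, 0 ≤ w π)
    (h : ∀ π x y, w (Equiv.swap x y * π) ≤ C * w π) {l : ℕ} {p a : Fin (l + 1) → Fin n}
    (ha : Function.Injective a) {b : Fin n} (hb : ∀ i : Fin l, a i.castSucc ≠ b) :
    pr w {π | ∀ i, π (p i) = a i} ≤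
      C * pr w {π | (∀ i : Fin l, π (p i.castSucc) = a i.castSucc) ∧ π (p (Fin.last l)) = b} := by
  classical
  unfold pr
  rw [← Equiv.sum_comp (Equiv.mulLeft (Equiv.swap (a (Fin.last l)) b)), Finset.mul_sum]
  refine Finset.sum_le_sum fun π _ => ?_
  rw [Equiv.coe_mulLeft]
  have hC0 : 0 ≤ C := by linarith
  split_ifs with h1 h2
  · exact h π _ _
  · exfalso
    apply h2
    have h3 : ∀ i, Equiv.swap (a (Fin.last l)) b (π (p i)) = a i := fun i => h1 i
    refine ⟨fun i => ?_, ?_⟩
    · have h4 := h3 i.castSucc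
      rw [Equiv.swap_apply_eq_iff, Equiv.swap_apply_of_ne_of_ne] at h4
      · exact h4
      · intro h5
        have := ha h5
        exact (Fin.castSucc_lt_last i).ne this
      · exact hb i
    · have h4 := h3 (Fin.last l)
      rw [Equiv.swap_apply_eq_iff, Equiv.swap_apply_left] at h4
      exact h4
  · exact mul_nonneg hC0 (hw π)
  · rw [mul_zero]

lemma pr_sum {n : ℕ} {w : Equiv.Perm (Fin n) → ℝ} (hw : ∀ π, 0 ≤ w π) {l : ℕ}
    {p a : Fin (l + 1) → Fin n} (T : Finset (Fin n)) :
    ∑ b ∈ T, pr w {π | (∀ i : Fin l, π (p i.castSucc) = a i.castSucc) ∧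
      π (p (Fin.last l)) = b} ≤ pr w {π | ∀ i : Fin l, π (p i.castSucc) = a i.castSucc} := by
  classical
  unfold pr
  rw [Finset.sum_comm]
  refine Finset.sum_le_sum fun π _ => ?_
  by_cases h1 : ∀ i : Fin l, π (p i.castSucc) = a i.castSucc
  · rw [if_pos (show π ∈ {π : Equiv.Perm (Fin n) | ∀ i : Fin l, π (p i.castSucc) = a i.castSucc}
      from h1)]
    refine (Finset.sum_le_sum (g := fun b => if π (p (Fin.last l)) = b then w π else 0)
      fun b _ => ?_).trans ?_
    · split_ifs with u1 u2 u2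
      · exact le_rfl
      · exact absurd u1.2 u2
      · exact hw π
      · exact le_rfl
    rw [Finset.sum_ite_eq]
    split_ifs
    · exact le_rfl
    · exact hw π
  · rw [if_neg (show ¬ π ∈ {π : Equiv.Perm (Fin n) |
      ∀ i : Fin l, π (p i.castSucc) = a i.castSucc} from h1)]
    refine (Finset.sum_eq_zero fun b _ => ?_).le
    rw [if_neg (fun h4 => h1 h4.1)]

theorem t_RATIO : S_RATIO := by
  intro n w C hC hw h l
  induction l with
  | zero =>
    intro p a _ _
    have e : {π : Equiv.Perm (Fin n) | ∀ i : Fin 0, π (p i) = a i} = Set.univ := by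
      ext π
      simp
    rw [e]
    unfold pr
    simp
  | succ l ih =>
    intro p a hp ha
    have h0 := ih (fun i => p i.castSucc) (fun i => a i.castSucc)
      (fun i j hij => Fin.castSucc_injective l (hp hij))
      (fun i j hij => Fin.castSucc_injective l (ha hij))
    obtain ⟨X, hX⟩ : ∃ X : ℝ, X = pr w {π | ∀ i, π (p i) = a i} := ⟨_, rfl⟩
    obtain ⟨Y, hY⟩ : ∃ Y : ℝ, Y = pr w {π | ∀ i : Fin l, π (p i.castSucc) = a i.castSucc} :=
      ⟨_, rfl⟩
    obtain ⟨T, hT⟩ : ∃ T : Finset (Fin n), T =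
      (Finset.univ.image fun i : Fin l => a i.castSucc)ᶜ := ⟨_, rfl⟩
    have hcard : T.card = n - l := by
      rw [hT, Finset.card_compl, Fintype.card_fin, Finset.card_image_of_injective, Finset.card_univ,
        Fintype.card_fin]
      exact fun i j hij => Fin.castSucc_injective l (ha hij)
    have h1 : ((n - l : ℕ) : ℝ) * X ≤ C * Y := by
      rw [← hcard]
      calc (T.card : ℝ) * X = ∑ b ∈ T, X := by rw [Finset.sum_const, nsmul_eq_mul]
        _ ≤ ∑ b ∈ T, C * pr w {π | (∀ i : Fin l, π (p i.castSucc) = a i.castSucc) ∧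
            π (p (Fin.last l)) = b} := by
          refine Finset.sum_le_sum fun b hb => ?_
          rw [hX]
          refine pr_swap hC hw h ha fun i hi => ?_
          rw [hT, Finset.mem_compl, Finset.mem_image] at hb
          exact hb ⟨i, Finset.mem_univ _, hi⟩
        _ = C * ∑ b ∈ T, pr w {π | (∀ i : Fin l, π (p i.castSucc) = a i.castSucc) ∧
            π (p (Fin.last l)) = b} := by rw [Finset.mul_sum]
        _ ≤ C * Y := by
          rw [hY]
          exact mul_le_mul_of_nonneg_left (pr_sum hw T) (by linarith)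
    rw [← hX, Nat.descFactorial_succ]
    rw [← hY] at h0
    push_cast
    have h2 : (0 : ℝ) ≤ (n.descFactorial l : ℝ) := Nat.cast_nonneg _
    calc X * (((n - l : ℕ) : ℝ) * (n.descFactorial l : ℝ)) =
        (((n - l : ℕ) : ℝ) * X) * (n.descFactorial l : ℝ) := by ring
      _ ≤ (C * Y) * (n.descFactorial l : ℝ) := mul_le_mul_of_nonneg_right h1 h2
      _ = C * (Y * (n.descFactorial l : ℝ)) := by ring
      _ ≤ C * (C ^ l * ∑ π, w π) := mul_le_mul_of_nonneg_left h0 (by linarith)
      _ = C ^ (l + 1) * ∑ π, w π := by ring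

end Pool.Agent.K3h42.FF
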